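import Pool.Agent.H816Z.Spec

set_option autoImplicit false

namespace Pool.Agent.H139Z

open Pool.Agent.H816Z

/-- a finite group of exponent two is an `F₂`-vector space -/
theorem elem_ab (Q : Type) [Group Q] [Finite Q] (h : ∀ x : Q, x * x = 1) :
    ∃ r : ℕ, Nonempty (Q ≃* Multiplicative (Fin r → ZMod 2)) := by
  have hinv : ∀ x : Q, x⁻¹ = x := fun x => inv_eq_of_mul_eq_one_right (h x)
  have hc : ∀ x y : Q, x * y = y * x := by
    intro x y
    have := hinv (x * y)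
    rw [mul_inv_rev, hinv, hinv] at this
    exact this.symm
  let : CommGroup Q := { (inferInstance : Group Q) with mul_comm := hc }
  have h2 : ∀ x : Additive Q, 2 • x = 0 := by
    intro x
    rw [two_nsmul]
    exact h x.toMul
  let : Module (ZMod 2) (Additive Q) := AddCommGroup.zmodModule h2
  have : Module.Finite (ZMod 2) (Additive Q) := Module.Finite.of_finite
  let b := Module.finBasis (ZMod 2) (Additive Q)
  exact ⟨_, ⟨AddEquiv.toMultiplicativeRight b.equivFun.toAddEquiv⟩⟩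

/-- iterates of an endomorphism -/
def it {Γ : Type} [Group Γ] (ψ : Γ →* Γ) : ℕ → (Γ →* Γ)
  | 0 => MonoidHom.id Γ
  | n + 1 => (it ψ n).comp ψ

theorem it_coe {Γ : Type} [Group Γ] (ψ : Γ →* Γ) (n : ℕ) : ⇑(it ψ n) = (⇑ψ)^[n] := by
  induction n with
  | zero => rfl
  | succ n ih =>
    rw [Function.iterate_succ, ← ih]
    rfl

theorem it_succ {Γ : Type} [Group Γ] (ψ : Γ →* Γ) (n : ℕ) (g : Γ) :
    it ψ (n + 1) g = it ψ n (ψ g) := rfl

theorem it_inj {Γ : Type} [Group Γ] {ψ : Γ →* Γ} (h : Function.Injective ψ) (n : ℕ) :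
    Function.Injective (it ψ n) := by
  rw [it_coe]
  exact h.iterate n

theorem it_index {Γ : Type} [Group Γ] {ψ : Γ →* Γ} (h : Function.Injective ψ) (n : ℕ) :
    (it ψ n).range.index = ψ.range.index ^ n := by
  induction n with
  | zero =>
    have : (it ψ 0).range = ⊤ := MonoidHom.range_eq_top.2 Function.surjective_id
    rw [this, Subgroup.index_top, pow_zero]
  | succ n ih =>
    have : (it ψ (n + 1)).range = ψ.range.map (it ψ n) := by
      change ((it ψ n).comp ψ).range = _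
      rw [MonoidHom.range_comp]
    rw [this, Subgroup.index_map_of_injective _ (it_inj h n), ih, pow_succ']

section Main

variable {Γ : Type} [Group Γ] {a s t : Γ} {π : Γ →* Multiplicative (ℤ × ℤ)} {ψ₀ ψ : Γ →* Γ}

theorem mem_ker_iff (B : BFacts Γ a s t π ψ₀) (g : Γ) : g ∈ π.ker ↔ g * g = 1 := by
  refine ⟨B.sq g, fun h => ?_⟩
  have h1 : π g * π g = 1 := by rw [← map_mul, h, map_one]
  have h2 : (π g).toAdd + (π g).toAdd = 0 := congrArg Multiplicative.toAdd h1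
  have h3 : (π g).toAdd = 0 := by
    have h4 := congrArg Prod.fst h2
    have h5 := congrArg Prod.snd h2
    simp only [Prod.fst_add, Prod.snd_add, Prod.fst_zero, Prod.snd_zero] at h4 h5
    ext
    · simp only [Prod.fst_zero]; omega
    · simp only [Prod.snd_zero]; omega
  exact h3

theorem map_mem_ker_iff (B : BFacts Γ a s t π ψ₀) {f : Γ →* Γ} (hf : Function.Injective f)
    (g : Γ) : f g ∈ π.ker ↔ g ∈ π.ker := by
  rw [mem_ker_iff B, mem_ker_iff B, ← map_mul, map_eq_one_iff f hf]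

theorem pi_st (B : BFacts Γ a s t π ψ₀) (x y : ℤ) :
    π (s ^ x * t ^ y) = Multiplicative.ofAdd (x, y) := by
  rw [map_mul, map_zpow, map_zpow, B.πs, B.πt, ← ofAdd_zsmul, ← ofAdd_zsmul, ← ofAdd_add]
  congr 1
  ext <;> simp

theorem conj_eq (B : BFacts Γ a s t π ψ₀) {g g' : Γ} (h : π g = π g') {x : Γ}
    (hx : x ∈ π.ker) : g * x * g⁻¹ = g' * x * g'⁻¹ := by
  have hb : g'⁻¹ * g ∈ π.ker := by
    rw [MonoidHom.mem_ker, map_mul, map_inv, h, inv_mul_cancel]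
  have := B.comm _ hb _ hx
  calc g * x * g⁻¹ = g' * ((g'⁻¹ * g) * x) * g⁻¹ := by group
    _ = g' * (x * (g'⁻¹ * g)) * g⁻¹ := by rw [this]
    _ = g' * x * g'⁻¹ := by group

theorem exists_pi_psi (B : BFacts Γ a s t π ψ₀) (hr : ψ.range = ψ₀.range) (g : Γ) :
    ∃ g₁, π (ψ g₁) = π g := by
  have h1 : s ^ (π g).toAdd.1 * t ^ (π g).toAdd.2 ∈ ψ.range := by
    rw [hr]
    exact mul_mem (zpow_mem (MonoidHom.mem_range.2 ⟨s, B.ψs⟩) _)
      (zpow_mem (MonoidHom.mem_range.2 ⟨t, B.ψt⟩) _)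
  obtain ⟨g₁, h⟩ := h1
  exact ⟨g₁, by rw [h, pi_st B]; rfl⟩

theorem exists_pi_it (B : BFacts Γ a s t π ψ₀) (hi : Function.Injective ψ)
    (hr : ψ.range = ψ₀.range) (n : ℕ) (g : Γ) : ∃ g₁, π (it ψ n g₁) = π g := by
  induction n with
  | zero => exact ⟨g, rfl⟩
  | succ n ih =>
    obtain ⟨g₁, h₁⟩ := ih
    obtain ⟨g₂, h₂⟩ := exists_pi_psi B hr g₁
    refine ⟨g₂, ?_⟩
    rw [it_succ, ← h₁]
    have h3 : (ψ g₂)⁻¹ * g₁ ∈ π.ker := by
      rw [MonoidHom.mem_ker, map_mul, map_inv, h₂, inv_mul_cancel]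
    have h4 := (map_mem_ker_iff B (it_inj hi n) _).2 h3
    rw [MonoidHom.mem_ker, map_mul, map_inv, map_mul, map_inv, inv_mul_eq_one] at h4
    exact h4

theorem step (B : BFacts Γ a s t π ψ₀) (hi : Function.Injective ψ)
    (hr : ψ.range = ψ₀.range) (i : ℕ) (g x : Γ) (hx : x ∈ π.ker.map (it ψ i)) :
    g ^ 3 * x * (g ^ 3)⁻¹ * x⁻¹ ∈ π.ker.map (it ψ (i + 1)) := by
  obtain ⟨y, hy, rfl⟩ := hx
  obtain ⟨g₁, h₁⟩ := exists_pi_it B hi hr i g
  have hxk : it ψ i y ∈ π.ker := (map_mem_ker_iff B (it_inj hi i) _).2 hy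
  have h2 : π (g ^ 3) = π (it ψ i (g₁ ^ 3)) := by
    rw [map_pow, map_pow, map_pow, h₁]
  rw [conj_eq B h2 hxk]
  have h3 := B.cube g₁ y hy
  rw [← hr] at h3
  obtain ⟨z, hz⟩ := h3
  have hzk : z ∈ π.ker := by
    rw [← map_mem_ker_iff B hi, hz]
    exact mul_mem ((MonoidHom.normal_ker π).conj_mem _ hy _) (inv_mem hy)
  refine ⟨z, hzk, ?_⟩
  rw [it_succ, hz]
  simp only [map_mul, map_inv]

theorem ker_map_le (B : BFacts Γ a s t π ψ₀) (hi : Function.Injective ψ) (i : ℕ) :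
    π.ker.map (it ψ i) ≤ π.ker := by
  rintro _ ⟨y, hy, rfl⟩
  exact (map_mem_ker_iff B (it_inj hi i) _).2 hy

theorem steps (B : BFacts Γ a s t π ψ₀) (hi : Function.Injective ψ)
    (hr : ψ.range = ψ₀.range) (g : Γ) (j : ℕ) : ∀ (i : ℕ) (x : Γ), x ∈ π.ker.map (it ψ i) →
    g ^ (3 * 2 ^ j) * x * (g ^ (3 * 2 ^ j))⁻¹ * x⁻¹ ∈ π.ker.map (it ψ (i + 2 ^ j)) := by
  induction j with
  | zero =>
    intro i x hx
    simpa using step B hi hr i g x hx
  | succ j ih =>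
    intro i x hx
    have h1 := ih _ _ (ih i x hx)
    have e1 : i + 2 ^ j + 2 ^ j = i + 2 ^ (j + 1) := by rw [pow_succ]; ring
    have e2 : g ^ (3 * 2 ^ (j + 1)) = g ^ (3 * 2 ^ j) * g ^ (3 * 2 ^ j) := by
      rw [← pow_add]; congr 1; rw [pow_succ]; ring
    rw [e1] at h1
    rw [e2]
    generalize g ^ (3 * 2 ^ j) = h at h1 ⊢
    have hxk : x ∈ π.ker := ker_map_le B hi i hx
    have hyk : h * x * h⁻¹ ∈ π.ker := (MonoidHom.normal_ker π).conj_mem _ hxk _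
    have c1 := B.comm _ hxk _ hyk
    have c2 := B.sq _ hyk
    have c3 := B.sq _ hxk
    have hxi : x⁻¹ = x := inv_eq_of_mul_eq_one_right c3
    have hyi : (h * x * h⁻¹)⁻¹ = h * x * h⁻¹ := inv_eq_of_mul_eq_one_right c2
    have key : h * (h * x * h⁻¹ * x⁻¹) * h⁻¹ * (h * x * h⁻¹ * x⁻¹)⁻¹ =
        h * h * x * (h * h)⁻¹ * x⁻¹ := by
      calc h * (h * x * h⁻¹ * x⁻¹) * h⁻¹ * (h * x * h⁻¹ * x⁻¹)⁻¹
          = h * h * x * (h * h)⁻¹ * ((h * x * h⁻¹)⁻¹ * (x * (h * x * h⁻¹)⁻¹)) := by group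
        _ = h * h * x * (h * h)⁻¹ * ((h * x * h⁻¹) * (x * (h * x * h⁻¹))) := by rw [hyi]
        _ = h * h * x * (h * h)⁻¹ * (((h * x * h⁻¹) * (h * x * h⁻¹)) * x) := by
            rw [c1, ← mul_assoc (h * x * h⁻¹) (h * x * h⁻¹) x]
        _ = h * h * x * (h * h)⁻¹ * x⁻¹ := by rw [c2, one_mul, hxi]
    rwa [key] at h1

/-- reduction of `ℤ²` modulo `N` -/
def red (N : ℕ) : Multiplicative (ℤ × ℤ) →* Multiplicative (ZMod N × ZMod N) :=
  AddMonoidHom.toMultiplicative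
    ((Int.castAddHom (ZMod N)).prodMap (Int.castAddHom (ZMod N)))

theorem red_eq_one (N : ℕ) (v : Multiplicative (ℤ × ℤ)) :
    red N v = 1 ↔ ∃ x y : ℤ, v = Multiplicative.ofAdd ((N : ℤ) * x, (N : ℤ) * y) := by
  have h1 : red N v = 1 ↔ ((v.toAdd.1 : ZMod N) = 0 ∧ (v.toAdd.2 : ZMod N) = 0) := by
    rw [← Prod.mk_eq_zero]
    rfl
  rw [h1, ZMod.intCast_zmod_eq_zero_iff_dvd, ZMod.intCast_zmod_eq_zero_iff_dvd]
  constructor
  · rintro ⟨⟨x, hx⟩, ⟨y, hy⟩⟩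
    refine ⟨x, y, ?_⟩
    rw [← hx, ← hy]
    rfl
  · rintro ⟨x, y, rfl⟩
    exact ⟨⟨x, rfl⟩, ⟨y, rfl⟩⟩

theorem pow_mem_H (N : ℕ) (g : Γ) : g ^ N ∈ ((red N).comp π).ker := by
  rw [MonoidHom.mem_ker, MonoidHom.comp_apply, red_eq_one]
  refine ⟨(π g).toAdd.1, (π g).toAdd.2, ?_⟩
  rw [map_pow]
  apply Multiplicative.toAdd.injective
  rw [toAdd_pow]
  ext <;> simp

theorem mem_H (B : BFacts Γ a s t π ψ₀) (N : ℕ) {h : Γ} (hh : h ∈ ((red N).comp π).ker) :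
    ∃ x y : ℤ, π h = π ((s ^ N) ^ x * (t ^ N) ^ y) ∧ π h = π ((s ^ x * t ^ y) ^ N) := by
  rw [MonoidHom.mem_ker, MonoidHom.comp_apply, red_eq_one] at hh
  obtain ⟨x, y, h1⟩ := hh
  refine ⟨x, y, ?_, ?_⟩
  · rw [← zpow_natCast, ← zpow_natCast, ← zpow_mul, ← zpow_mul, pi_st B, h1]
  · rw [map_pow, pi_st B, h1]
    apply Multiplicative.toAdd.injective
    rw [toAdd_pow]
    ext <;> simp

theorem mem_H_of_pi (N : ℕ) {h h' : Γ} (e : π h = π h') (hh : h' ∈ ((red N).comp π).ker) :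
    h ∈ ((red N).comp π).ker := by
  rw [MonoidHom.mem_ker, MonoidHom.comp_apply] at hh ⊢
  rw [e, hh]

theorem ker_le_H (N : ℕ) : π.ker ≤ ((red N).comp π).ker := by
  intro b hb
  exact mem_H_of_pi N (h' := 1) (by rw [map_one]; exact hb) (one_mem _)

theorem pi_map_eq (B : BFacts Γ a s t π ψ₀) {f : Γ →* Γ} (hf : Function.Injective f)
    {g g' : Γ} (e : π g = π g') : π (f g) = π (f g') := by
  have h3 : g'⁻¹ * g ∈ π.ker := by
    rw [MonoidHom.mem_ker, map_mul, map_inv, e, inv_mul_cancel]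
  have h4 := (map_mem_ker_iff B hf _).2 h3
  rw [MonoidHom.mem_ker, map_mul, map_inv, map_mul, map_inv, inv_mul_eq_one] at h4
  exact h4.symm

theorem conj_closure (B : BFacts Γ a s t π ψ₀) {x : Γ}
    (hx : x ∈ Subgroup.closure (Set.range fun j : ℤ => t ^ j * a * (t ^ j)⁻¹)) :
    s * x * s⁻¹ ∈ Subgroup.closure (Set.range fun j : ℤ => t ^ j * a * (t ^ j)⁻¹) := by
  induction hx using Subgroup.closure_induction with
  | mem y hy =>
    obtain ⟨j, rfl⟩ := hy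
    have hc : Commute s (t ^ j) := Commute.zpow_right B.st j
    have e : s * (t ^ j * a * (t ^ j)⁻¹) * s⁻¹ =
        (t ^ j * a * (t ^ j)⁻¹) * (t ^ (j + 1) * a * (t ^ (j + 1))⁻¹) := by
      calc s * (t ^ j * a * (t ^ j)⁻¹) * s⁻¹
          = (s * t ^ j) * a * (s * t ^ j)⁻¹ := by group
        _ = (t ^ j * s) * a * (t ^ j * s)⁻¹ := by rw [hc.eq]
        _ = t ^ j * (s * a * s⁻¹) * (t ^ j)⁻¹ := by group
        _ = t ^ j * (a * (t * a * t⁻¹)) * (t ^ j)⁻¹ := by rw [B.rel]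
        _ = _ := by group
    change s * (t ^ j * a * (t ^ j)⁻¹) * s⁻¹ ∈ _
    rw [e]
    exact mul_mem (Subgroup.subset_closure ⟨j, rfl⟩) (Subgroup.subset_closure ⟨j + 1, rfl⟩)
  | one => simp
  | mul y z _ _ hy hz =>
    have e : s * (y * z) * s⁻¹ = (s * y * s⁻¹) * (s * z * s⁻¹) := by group
    rw [e]
    exact mul_mem hy hz
  | inv y _ hy =>
    have e : s * y⁻¹ * s⁻¹ = (s * y * s⁻¹)⁻¹ := by group
    rw [e]
    exact inv_mem hy

theorem conj_closure_pow (B : BFacts Γ a s t π ψ₀) (n : ℕ) {x : Γ}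
    (hx : x ∈ Subgroup.closure (Set.range fun j : ℤ => t ^ j * a * (t ^ j)⁻¹)) :
    s ^ n * x * (s ^ n)⁻¹ ∈ Subgroup.closure (Set.range fun j : ℤ => t ^ j * a * (t ^ j)⁻¹) := by
  induction n with
  | zero => simpa using hx
  | succ n ih =>
    have e : s ^ (n + 1) * x * (s ^ (n + 1))⁻¹ = s * (s ^ n * x * (s ^ n)⁻¹) * s⁻¹ := by
      rw [pow_succ']; group
    rw [e]
    exact conj_closure B ih

/-- a subgroup `K ≤ H`, closed under the relevant conjugations, containing the generators -/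
theorem gen_H (B : BFacts Γ a s t π ψ₀) (N : ℕ) (hN : 0 < N) (K : Subgroup Γ)
    (hconj : ∀ h ∈ ((red N).comp π).ker, ∀ x ∈ K, h * x * h⁻¹ ∈ K)
    (hs : s ^ N ∈ K) (ht : t ^ N ∈ K)
    (ha : ∀ j : ℕ, j < N → t ^ (j : ℤ) * a * (t ^ (j : ℤ))⁻¹ ∈ K) :
    ((red N).comp π).ker ≤ K := by
  have h1 : ∀ j : ℤ, t ^ j * a * (t ^ j)⁻¹ ∈ K := by
    intro j
    have hN' : (0 : ℤ) < N := by exact_mod_cast hN
    have h2 : 0 ≤ j % N := Int.emod_nonneg _ hN'.ne'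
    have h3 : j % N < N := Int.emod_lt_of_pos _ hN'
    have h4 := ha (j % N).toNat (by omega)
    rw [Int.toNat_of_nonneg h2] at h4
    have h5 := hconj ((t ^ N) ^ (j / N)) (zpow_mem (pow_mem_H N t) _) _ h4
    have e : t ^ j = (t ^ N) ^ (j / N) * t ^ (j % N) := by
      rw [← zpow_natCast, ← zpow_mul, ← zpow_add, Int.mul_ediv_add_emod]
    rw [e]
    convert h5 using 1
    group
  have h2 : Subgroup.closure (Set.range fun j : ℤ => t ^ j * a * (t ^ j)⁻¹) ≤ K := by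
    rw [Subgroup.closure_le]
    rintro _ ⟨j, rfl⟩
    exact h1 j
  have h3 : π.ker ≤ K := by
    intro b hb
    obtain ⟨m, hm⟩ := B.gen b hb
    have h4 := h2 (conj_closure_pow B (N * m - m) hm)
    have e : (s ^ N) ^ m = s ^ (N * m - m) * s ^ m := by
      rw [← pow_mul, ← pow_add]
      congr 1
      have : m ≤ N * m := Nat.le_mul_of_pos_left m hN
      omega
    have h5 := hconj ((s ^ N) ^ m)⁻¹ (inv_mem (pow_mem (pow_mem_H N s) _)) _ h4
    rw [e] at h5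
    convert h5 using 1
    group
  intro h hh
  obtain ⟨x, y, e, -⟩ := mem_H B N hh
  have h4 : h * ((s ^ N) ^ x * (t ^ N) ^ y)⁻¹ ∈ π.ker := by
    rw [MonoidHom.mem_ker, map_mul, map_inv, ← e, mul_inv_cancel]
  have h5 := mul_mem (h3 h4) (mul_mem (zpow_mem hs x) (zpow_mem ht y))
  rwa [inv_mul_cancel_right] at h5

end Main

theorem g2 : S_G2 := by
  classical
  intro Γ _ a s t π ψ₀ B ψ hi hr r₀
  obtain ⟨k, hk⟩ : ∃ k, k = 2 ^ r₀ := ⟨_, rfl⟩
  obtain ⟨N, hN⟩ : ∃ N, N = 3 * k := ⟨_, rfl⟩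
  have hk0 : r₀ < k := hk ▸ Nat.lt_two_pow_self
  have hN0 : 0 < N := by omega
  have : NeZero N := ⟨hN0.ne'⟩
  obtain ⟨H, hH⟩ : ∃ H : Subgroup Γ, H = ((red N).comp π).ker := ⟨_, rfl⟩
  have hAH : π.ker ≤ H := hH ▸ ker_le_H N
  have hpow : ∀ g : Γ, g ^ N ∈ H := fun g => hH ▸ pow_mem_H N g
  have hmem : ∀ h ∈ H, ∃ g, π h = π (g ^ N) := by
    intro h hh
    rw [hH] at hh
    obtain ⟨x, y, -, e⟩ := mem_H B N hh
    exact ⟨_, e⟩
  have hpi : ∀ h h', π h = π h' → h' ∈ H → h ∈ H := by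
    intro h h' e hh
    rw [hH] at hh ⊢
    exact mem_H_of_pi N e hh
  have hf := it_inj hi k
  -- `ψ^k` preserves `H`
  have hpres : ∀ h ∈ H, it ψ k h ∈ H := by
    intro h hh
    obtain ⟨g, e⟩ := hmem h hh
    refine hpi _ _ (pi_map_eq B hf e) ?_
    rw [map_pow]
    exact hpow _
  -- `H = A ψ^k(H)`
  have hdec : ∀ h ∈ H, ∃ b ∈ π.ker, ∃ l ∈ H.map (it ψ k), h = b * l := by
    intro h hh
    obtain ⟨g, e⟩ := hmem h hh
    obtain ⟨g₁, e₁⟩ := exists_pi_it B hi hr k g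
    refine ⟨h * (it ψ k (g₁ ^ N))⁻¹, ?_, it ψ k (g₁ ^ N), ⟨g₁ ^ N, hpow _, rfl⟩, ?_⟩
    · rw [MonoidHom.mem_ker, map_mul, map_inv, e, map_pow, map_pow, map_pow, e₁, mul_inv_cancel]
    · rw [inv_mul_cancel_right]
  -- `H` acts trivially on `A / ψ^k(A)`
  have htriv : ∀ h ∈ H, ∀ x ∈ π.ker, h * x * h⁻¹ * x⁻¹ ∈ H.map (it ψ k) := by
    intro h hh x hx
    obtain ⟨g, e⟩ := hmem h hh
    rw [conj_eq B e hx]
    have h1 := steps B hi hr g r₀ 0 x ⟨x, hx, rfl⟩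
    rw [zero_add, ← hk, ← hN] at h1
    exact Subgroup.map_mono hAH h1
  have hLH : H.map (it ψ k) ≤ H := by
    rintro _ ⟨h, hh, rfl⟩
    exact hpres h hh
  have hnorm : ((H.map (it ψ k)).subgroupOf H).Normal := by
    refine ⟨fun l hl h => ?_⟩
    rw [Subgroup.mem_subgroupOf] at hl ⊢
    obtain ⟨b, hb, l', hl', e⟩ := hdec h h.2
    have h1 : l' * l * l'⁻¹ ∈ H.map (it ψ k) := mul_mem (mul_mem hl' hl) (inv_mem hl')
    have h2 := mul_mem (inv_mem (htriv _ (hLH h1) b hb)) h1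
    simp only [Subgroup.coe_mul, Subgroup.coe_inv]
    rw [e]
    convert h2 using 1
    group
  have hidx0 : H.index ≠ 0 ∧ H.index ≤ N ^ 2 := by
    rw [hH, Subgroup.index_ker]
    refine ⟨Nat.card_pos.ne', ?_⟩
    calc Nat.card ((red N).comp π).range ≤ Nat.card (Multiplicative (ZMod N × ZMod N)) :=
          Nat.card_le_card_of_injective _ Subtype.val_injective
      _ = N ^ 2 := by
          rw [Nat.card_congr Multiplicative.toAdd, Nat.card_prod, Nat.card_zmod, sq]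
  have hcard : Nat.card (H ⧸ (H.map (it ψ k)).subgroupOf H) = ψ.range.index ^ k := by
    have h1 := Subgroup.relIndex_mul_index hLH
    rw [Subgroup.index_map_of_injective _ hf, it_index hi, mul_comm] at h1
    exact Nat.eq_of_mul_eq_mul_left (Nat.pos_of_ne_zero hidx0.1) h1
  have hd : 1 < ψ.range.index := hr ▸ B.idx
  have : Finite (H ⧸ (H.map (it ψ k)).subgroupOf H) := by
    apply Nat.finite_of_card_ne_zero
    rw [hcard]
    positivity
  have hsq : ∀ x : H ⧸ (H.map (it ψ k)).subgroupOf H, x * x = 1 := by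
    intro x
    obtain ⟨h, rfl⟩ := QuotientGroup.mk_surjective x
    obtain ⟨b, hb, l, hl, e⟩ := hdec h h.2
    have e1 : (h : H ⧸ (H.map (it ψ k)).subgroupOf H) = ((⟨b, hAH hb⟩ : H) : H ⧸ _) := by
      symm
      rw [QuotientGroup.eq, Subgroup.mem_subgroupOf]
      simp only [Subgroup.coe_mul, Subgroup.coe_inv]
      rw [e, inv_mul_cancel_left]
      exact hl
    rw [e1, ← QuotientGroup.mk_mul]
    have e2 : (⟨b, hAH hb⟩ : H) * ⟨b, hAH hb⟩ = 1 := Subtype.ext (B.sq b hb)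
    rw [e2, QuotientGroup.mk_one]
  obtain ⟨r, ⟨e⟩⟩ := elem_ab _ hsq
  have hkr : k ≤ r := by
    have h1 : Nat.card (H ⧸ (H.map (it ψ k)).subgroupOf H) = 2 ^ r := by
      rw [Nat.card_congr e.toEquiv, Nat.card_congr Multiplicative.toAdd, Nat.card_fun,
        Nat.card_zmod, Nat.card_eq_fintype_card, Fintype.card_fin]
    have h2 : 2 ^ k ≤ 2 ^ r := by
      rw [← h1, hcard]
      exact Nat.pow_le_pow_left hd k
    exact (Nat.pow_le_pow_iff_right (by norm_num)).1 h2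
  have haH : ∀ j : ℕ, t ^ (j : ℤ) * a * (t ^ (j : ℤ))⁻¹ ∈ H := fun j =>
    hAH ((MonoidHom.normal_ker π).conj_mem _ B.πa _)
  refine ⟨H, k, r, e.toMonoidHom.comp (QuotientGroup.mk' _),
    insert ⟨s ^ N, hpow s⟩ (insert ⟨t ^ N, hpow t⟩
      ((Finset.range N).image fun j => (⟨_, haH j⟩ : H))), by omega,
    e.surjective.comp (QuotientGroup.mk'_surjective _), ?_, ?_, hidx0.1, ?_, ?_, ?_⟩
  · intro h
    rw [MonoidHom.comp_apply, MulEquiv.coe_toMonoidHom, map_eq_one_iff e e.injective,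
      QuotientGroup.mk'_apply, QuotientGroup.eq_one_iff, Subgroup.mem_subgroupOf, ← it_coe]
    rfl
  · intro h hh
    rw [← it_coe]
    exact hpres h hh
  · calc H.index ≤ N ^ 2 := hidx0.2
      _ = 9 * k ^ 2 := by rw [hN]; ring
      _ ≤ 9 * r ^ 2 := by gcongr
  · refine (Finset.card_insert_le _ _).trans ?_
    refine (Nat.succ_le_succ (Finset.card_insert_le _ _)).trans ?_
    have := (Finset.card_image_le (s := Finset.range N)
      (f := fun j => (⟨_, haH j⟩ : H))).trans (Finset.card_range N).le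
    omega
  · intro χ hχ
    have hle : ((red N).comp π).ker ≤ χ.ker.map H.subtype := by
      refine gen_H B N hN0 _ ?_ ?_ ?_ ?_
      · rintro h hh _ ⟨x, hx, rfl⟩
        rw [← hH] at hh
        exact ⟨⟨h, hh⟩ * x * ⟨h, hh⟩⁻¹, (MonoidHom.normal_ker χ).conj_mem _ hx _, rfl⟩
      · exact ⟨⟨s ^ N, hpow s⟩, hχ _ (Finset.mem_insert_self _ _), rfl⟩
      · exact ⟨⟨t ^ N, hpow t⟩,
          hχ _ (Finset.mem_insert_of_mem (Finset.mem_insert_self _ _)), rfl⟩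
      · intro j hj
        exact ⟨⟨_, haH j⟩, hχ _ (Finset.mem_insert_of_mem (Finset.mem_insert_of_mem
          (Finset.mem_image.2 ⟨j, Finset.mem_range.2 hj, rfl⟩))), rfl⟩
    rw [← hH] at hle
    ext1 h
    obtain ⟨x, hx, e'⟩ := hle h.2
    have : x = h := Subtype.ext e'
    rw [← this]
    exact hx

end Pool.Agent.H139Z
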